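import Mathlib

open ContinuousLinearMap

namespace Pool.Agent.Helper951_ma

variable {H : Type*} [NormedAddCommGroup H] [InnerProductSpace ℂ H] [CompleteSpace H]

/-- `T = V P` is the polar decomposition: `P = |T|` is the positive square root of `T^* T` and `V`
is the partial isometry with initial space `(ker T)^⊥` and kernel `ker T`. -/
structure IsPolar (T V P : H →L[ℂ] H) : Prop where
  pos : P.IsPositive
  sq : P * P = adjoint T * T
  eq : T = V * P
  iso : ∀ x, (∀ y, T y = 0 → inner ℂ y x = 0) → ‖V x‖ = ‖x‖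
  ker : ∀ x, T x = 0 → V x = 0

/-- `Q` is the positive square root of `P`. -/
def IsSqrt (P Q : H →L[ℂ] H) : Prop := Q.IsPositive ∧ Q * Q = P

/-- the mean transform of the Aluthge transform of `T` equals the Aluthge transform of the mean
transform of `T`. -/
def Commutes (T : H →L[ℂ] H) : Prop :=
  ∃ V P Q V₁ P₁ V₂ P₂ Q₂ : H →L[ℂ] H,
    IsPolar T V P ∧ IsSqrt P Q ∧
    IsPolar (Q * V * Q) V₁ P₁ ∧
    IsPolar ((2⁻¹ : ℂ) • (V * P + P * V)) V₂ P₂ ∧ IsSqrt P₂ Q₂ ∧
    (2⁻¹ : ℂ) • (V₁ * P₁ + P₁ * V₁) = Q₂ * V₂ * Q₂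

end Pool.Agent.Helper951_ma
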