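import Pool.Agent.Helper951_ma.Defs
open ContinuousLinearMap Pool.Agent.Helper951_ma
namespace Pool.Agent.Helper951_ma
variable {H : Type*} [NormedAddCommGroup H] [InnerProductSpace ℂ H] [CompleteSpace H]

theorem dim_two (hH : Module.finrank ℂ H = 2) (T : H →L[ℂ] H) (hT : ¬ IsUnit T) :
    ∃ a b : H, ∀ x, T x = (inner ℂ b x : ℂ) • a := by
  have hfd : FiniteDimensional ℂ H := Module.finite_of_finrank_pos (by omega)
  have hinj : ¬ Function.Injective T := by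
    intro h
    apply hT
    rw [ContinuousLinearMap.isUnit_iff_bijective]
    exact ⟨h, (LinearMap.injective_iff_surjective (f := (T : H →ₗ[ℂ] H))).1 h⟩
  have hker : LinearMap.ker (T : H →ₗ[ℂ] H) ≠ ⊥ := fun h => hinj (LinearMap.ker_eq_bot.1 h)
  have h1 : 1 ≤ Module.finrank ℂ (LinearMap.ker (T : H →ₗ[ℂ] H)) :=
    Submodule.one_le_finrank_iff.2 hker
  have h2 := LinearMap.finrank_range_add_finrank_ker (T : H →ₗ[ℂ] H)
  have h3 : Module.finrank ℂ (LinearMap.range (T : H →ₗ[ℂ] H)) ≤ 1 := by omega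
  obtain ⟨⟨v, hv⟩, hw⟩ := finrank_le_one_iff.1 h3
  have hw' : ∀ x, ∃ c : ℂ, c • v = T x := by
    intro x
    obtain ⟨c, hc⟩ := hw ⟨T x, ⟨x, rfl⟩⟩
    exact ⟨c, congrArg Subtype.val hc⟩
  rcases eq_or_ne v 0 with h0 | h0
  · refine ⟨0, 0, fun x => ?_⟩
    obtain ⟨c, hc⟩ := hw' x
    rw [← hc, h0]; simp
  · refine ⟨v, ((‖v‖ : ℂ) ^ 2)⁻¹ • adjoint T v, fun x => ?_⟩
    obtain ⟨c, hc⟩ := hw' x
    have hn : ((‖v‖ : ℂ) ^ 2) ≠ 0 := pow_ne_zero _ (by exact_mod_cast norm_ne_zero_iff.2 h0)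
    rw [inner_smul_left, ContinuousLinearMap.adjoint_inner_left, ← hc, inner_smul_right,
      inner_self_eq_norm_sq_to_K]
    congr 1
    have h4 : (starRingEnd ℂ) (((‖v‖ : ℂ) ^ 2)⁻¹) = ((‖v‖ : ℂ) ^ 2)⁻¹ := by
      rw [map_inv₀, map_pow, Complex.conj_ofReal]
    rw [h4]
    change c = ((‖v‖ : ℂ) ^ 2)⁻¹ * (c * (‖v‖ : ℂ) ^ 2)
    rw [mul_comm c, ← mul_assoc, inv_mul_cancel₀ hn, one_mul]

end Pool.Agent.Helper951_ma
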