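import Pool.Agent.Helper951_ma.Defs
open ContinuousLinearMap Pool.Agent.Helper951_ma
namespace Pool.Agent.Helper951_ma
variable {H : Type*} [NormedAddCommGroup H] [InnerProductSpace ℂ H] [CompleteSpace H]

namespace InvTrace

theorem exists_root (P : H →L[ℂ] H) (hP : P.IsPositive) :
    ∃ A : H →L[ℂ] H, IsSelfAdjoint A ∧ A * A = P := by
  have h0 : 0 ≤ P := (ContinuousLinearMap.nonneg_iff_isPositive P).2 hP
  exact ⟨CFC.sqrt P, IsSelfAdjoint.of_nonneg (CFC.sqrt_nonneg P), CFC.sqrt_mul_sqrt_self P h0⟩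

theorem isUnit_root {A P : H →L[ℂ] H} (h : A * A = P) (hP : IsUnit P) : IsUnit A :=
  ((Commute.refl A).isUnit_mul_iff.1 (by rw [h]; exact hP)).1

theorem trace_comm [FiniteDimensional ℂ H] (X Y : H →L[ℂ] H) :
    LinearMap.trace ℂ H ((X * Y : H →L[ℂ] H) : H →ₗ[ℂ] H) =
      LinearMap.trace ℂ H ((Y * X : H →L[ℂ] H) : H →ₗ[ℂ] H) :=
  LinearMap.trace_mul_comm ℂ (X : H →ₗ[ℂ] H) (Y : H →ₗ[ℂ] H)

theorem trace_star [FiniteDimensional ℂ H] (C : H →L[ℂ] H) :
    LinearMap.trace ℂ H ((adjoint C * C : H →L[ℂ] H) : H →ₗ[ℂ] H) =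
      ((∑ i, ‖C (stdOrthonormalBasis ℂ H i)‖ ^ 2 : ℝ) : ℂ) := by
  rw [LinearMap.trace_eq_sum_inner _ (stdOrthonormalBasis ℂ H)]
  push_cast
  refine Finset.sum_congr rfl fun i _ => ?_
  change inner ℂ (stdOrthonormalBasis ℂ H i) (adjoint C (C (stdOrthonormalBasis ℂ H i))) = _
  rw [ContinuousLinearMap.adjoint_inner_right, inner_self_eq_norm_sq_to_K]
  rfl

end InvTrace

open InvTrace in
/-- tr (P Y Z Y) is a nonnegative real, zero only for Y = 0 -/
theorem trace_key [FiniteDimensional ℂ H] (P Y Z : H →L[ℂ] H) (hP : P.IsPositive) (hPu : IsUnit P)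
    (hZ : Z.IsPositive) (hZu : IsUnit Z) (hY : IsSelfAdjoint Y) :
    0 ≤ (LinearMap.trace ℂ H ((P * Y * Z * Y : H →L[ℂ] H) : H →ₗ[ℂ] H)).re ∧
    ((LinearMap.trace ℂ H ((P * Y * Z * Y : H →L[ℂ] H) : H →ₗ[ℂ] H)).re = 0 → Y = 0) := by
  obtain ⟨A, hA, hAP⟩ := exists_root P hP
  obtain ⟨B, hB, hBZ⟩ := exists_root Z hZ
  have hAu : IsUnit A := isUnit_root hAP hPu
  have hBu : IsUnit B := isUnit_root hBZ hZu
  have hstar : adjoint (B * Y * A) = A * Y * B := by
    rw [← ContinuousLinearMap.star_eq_adjoint, star_mul, star_mul, hA.star_eq, hB.star_eq,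
      hY.star_eq, mul_assoc]
  have e : LinearMap.trace ℂ H ((P * Y * Z * Y : H →L[ℂ] H) : H →ₗ[ℂ] H) =
      ((∑ i, ‖(B * Y * A) (stdOrthonormalBasis ℂ H i)‖ ^ 2 : ℝ) : ℂ) := by
    rw [← trace_star, hstar]
    have e1 : P * Y * Z * Y = A * (A * (Y * (B * (B * Y)))) := by
      rw [← hAP, ← hBZ]
      simp only [mul_assoc]
    have e2 : A * Y * B * (B * Y * A) = (A * (Y * (B * (B * Y)))) * A := by
      simp only [mul_assoc]
    rw [e1, e2]
    exact trace_comm _ _
  rw [e, Complex.ofReal_re]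
  refine ⟨Finset.sum_nonneg fun i _ => by positivity, fun h => ?_⟩
  have h1 := (Finset.sum_eq_zero_iff_of_nonneg fun i _ => by positivity).1 h
  have hC : B * Y * A = 0 := by
    have h2 : ((B * Y * A : H →L[ℂ] H) : H →ₗ[ℂ] H) = 0 := by
      refine (stdOrthonormalBasis ℂ H).toBasis.ext fun i => ?_
      have h3 := h1 i (Finset.mem_univ _)
      rw [OrthonormalBasis.coe_toBasis]
      change (B * Y * A) (stdOrthonormalBasis ℂ H i) = 0
      exact norm_eq_zero.1 (pow_eq_zero_iff two_ne_zero |>.1 h3)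
    exact ContinuousLinearMap.coe_injective h2
  have h4 : B * Y = 0 := hAu.mul_left_eq_zero.1 hC
  exact hBu.mul_right_eq_zero.1 h4


namespace InvNec

/-- trace as a linear functional on the algebra of operators -/
noncomputable def tr (A : H →L[ℂ] H) : ℂ := LinearMap.trace ℂ H (A : H →ₗ[ℂ] H)

theorem tr_add (A B : H →L[ℂ] H) : tr (A + B) = tr A + tr B := by
  simp [tr]

theorem tr_sub (A B : H →L[ℂ] H) : tr (A - B) = tr A - tr B := by
  simp [tr]

theorem tr_smul (c : ℂ) (A : H →L[ℂ] H) : tr (c • A) = c * tr A := by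
  simp [tr]

theorem tr_comm (A B : H →L[ℂ] H) : tr (A * B) = tr (B * A) := by
  unfold tr
  exact LinearMap.trace_mul_comm ℂ _ _

theorem sqrt_uniq {A B : H →L[ℂ] H} (hA : A.IsPositive) (hB : B.IsPositive)
    (h : A * A = B * B) : A = B := by
  have hA' := (ContinuousLinearMap.nonneg_iff_isPositive A).2 hA
  have hB' := (ContinuousLinearMap.nonneg_iff_isPositive B).2 hB
  have e1 : CFC.sqrt (B * B) = A := CFC.sqrt_unique h hA'
  have e2 : CFC.sqrt (B * B) = B := CFC.sqrt_unique rfl hB'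
  exact e1.symm.trans e2

theorem unit_of_sq {A : H →L[ℂ] H} (h : IsUnit (A * A)) : IsUnit A :=
  ((Commute.refl A).isUnit_mul_iff.1 h).1

theorem polar_unit {T V P : H →L[ℂ] H} (hT : IsUnit T) (h : IsPolar T V P) :
    IsUnit P ∧ star V * V = 1 ∧ V * star V = 1 := by
  have hP : IsUnit P := by
    apply unit_of_sq
    rw [h.sq, ← star_eq_adjoint]
    exact hT.star.mul hT
  have hV : IsUnit V := by
    have h1 : V * P = T := h.eq.symm
    obtain ⟨p, hp⟩ := hP
    obtain ⟨t, ht⟩ := hT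
    have : V = ((t * p⁻¹ : (H →L[ℂ] H)ˣ) : H →L[ℂ] H) := by
      rw [Units.val_mul, ht, ← h1, ← hp, mul_assoc, Units.mul_inv, mul_one]
    rw [this]
    exact Units.isUnit _
  have hiso : ∀ x, ‖V x‖ = ‖x‖ := by
    intro x
    apply h.iso
    intro y hy
    obtain ⟨t, ht⟩ := hT
    have : y = 0 := by
      have h2 : ((t⁻¹ : (H →L[ℂ] H)ˣ) : H →L[ℂ] H) (T y) = y := by
        rw [← ht, ← ContinuousLinearMap.mul_apply, Units.inv_mul]; rfl
      rw [← h2, hy, map_zero]
    rw [this, inner_zero_left]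
  have h3 : star V * V = 1 := by
    rw [star_eq_adjoint]
    exact (ContinuousLinearMap.norm_map_iff_adjoint_comp_self V).1 hiso
  refine ⟨hP, h3, ?_⟩
  obtain ⟨v, hv⟩ := hV
  have h4 : star V = ((v⁻¹ : (H →L[ℂ] H)ˣ) : H →L[ℂ] H) := by
    have : star V * V * ((v⁻¹ : (H →L[ℂ] H)ˣ) : H →L[ℂ] H) = star V := by
      rw [mul_assoc, ← hv, Units.mul_inv, mul_one]
    rw [← this, h3, one_mul]
  rw [h4, ← hv, Units.mul_inv]

theorem core [FiniteDimensional ℂ H] (V P G X x M : H →L[ℂ] H) (hV : star V * V = 1)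
    (hV' : V * star V = 1) (hP : P.IsPositive) (hPu : IsUnit P) (hG : G.IsPositive)
    (hX : X.IsPositive) (hx : x.IsPositive) (hXx : X * x = 1) (hxX : x * X = 1)
    (hM : M = (2⁻¹ : ℂ) • (P + star V * P * V)) (hGPG : G * P * G = star V * P * V)
    (hXMX : X * M * X = star V * M * V) (htr : tr (M * X) = tr (P * G)) :
    star V * P * V = P := by
  set R := star V * P * V with hR
  set S := star V * R * V with hS
  set G' := star V * G * V with hG'
  have hxu : IsUnit x := ⟨⟨x, X, hxX, hXx⟩, rfl⟩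
  have hGs : IsSelfAdjoint G := hG.isSelfAdjoint
  have hXs : IsSelfAdjoint X := hX.isSelfAdjoint
  have hG's : IsSelfAdjoint G' := by
    rw [IsSelfAdjoint, hG', star_mul, star_mul, star_star, hGs.star_eq, mul_assoc]
  have hRp : R.IsPositive := by
    have := hP.conj_adjoint (adjoint V)
    rw [adjoint_adjoint] at this
    have e : R = adjoint V ∘L P ∘L V := by
      rw [hR, star_eq_adjoint]; rfl
    rw [e]; exact this
  have hVu : IsUnit V := ⟨⟨V, star V, hV', hV⟩, rfl⟩
  have hRu : IsUnit R := by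
    rw [hR]; exact (hVu.star.mul hPu).mul hVu
  -- G' R G' = S
  have hS2 : G' * R * G' = S := by
    calc G' * R * G' = star V * G * (V * star V) * P * (V * star V) * G * V := by
            rw [hG', hR]; noncomm_ring
      _ = star V * (G * P * G) * V := by rw [hV']; noncomm_ring
      _ = S := by rw [hGPG]
  have hM' : star V * M * V = (2⁻¹ : ℂ) • (R + S) := by
    rw [hM, hS]
    simp only [mul_smul_comm, smul_mul_assoc, mul_add, add_mul]
    rw [← hR]
  obtain ⟨k1, k1'⟩ := trace_key P (X - G) x hP hPu hx hxu (hXs.sub hGs)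
  obtain ⟨k2, k2'⟩ := trace_key R (X - G') x hRp hRu hx hxu (hXs.sub hG's)
  change 0 ≤ (tr (P * (X - G) * x * (X - G))).re at k1
  change (tr (P * (X - G) * x * (X - G))).re = 0 → _ at k1'
  change 0 ≤ (tr (R * (X - G') * x * (X - G'))).re at k2
  change (tr (R * (X - G') * x * (X - G'))).re = 0 → _ at k2'
  have expand : ∀ A B : H →L[ℂ] H, tr (A * (X - B) * x * (X - B))
      = tr (A * X) - 2 * tr (A * B) + tr (B * A * B * x) := by
    intro A B
    have h1 : A * (X - B) * x * (X - B)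
        = A * X - A * B - A * B + A * B * x * B := by
      calc A * (X - B) * x * (X - B)
          = A * (X * x) * X - A * B * (x * X) - A * (X * x) * B + A * B * x * B := by noncomm_ring
        _ = _ := by rw [hXx, hxX]; noncomm_ring
    have h2 : tr (A * B * x * B) = tr (B * A * B * x) := by
      rw [tr_comm (A * B * x) B, ← mul_assoc, ← mul_assoc]
    rw [h1, tr_add, tr_sub, tr_sub, h2]
    ring
  rw [expand, hGPG] at k1 k1'
  rw [expand, hS2] at k2 k2'
  -- traces
  have t1 : tr (R * G') = tr (P * G) := by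
    have : R * G' = star V * (P * G * V) := by
      rw [hR, hG']
      calc star V * P * V * (star V * G * V) = star V * P * (V * star V) * G * V := by noncomm_ring
        _ = _ := by rw [hV']; noncomm_ring
    rw [this, tr_comm, mul_assoc, mul_assoc, hV', mul_one]
  have t2 : tr (M * X) = tr (star V * M * V * x) := by
    rw [← hXMX, mul_assoc (X * M), hXx, mul_one, tr_comm]
  have t3 : tr (M * X) = 2⁻¹ * (tr (P * X) + tr (R * X)) := by
    rw [hM, smul_mul_assoc, tr_smul, add_mul, tr_add]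
  have t4 : tr (star V * M * V * x) = 2⁻¹ * (tr (R * x) + tr (S * x)) := by
    rw [hM', smul_mul_assoc, tr_smul, add_mul, tr_add]
  have hsum : (tr (P * X) - 2 * tr (P * G) + tr (R * x)) +
      (tr (R * X) - 2 * tr (R * G') + tr (S * x)) = 0 := by
    rw [t1]
    linear_combination (-2) * t3 + (-2) * t4 + (-2) * t2 + 4 * htr
  have hre := congrArg Complex.re hsum
  rw [Complex.add_re, Complex.zero_re] at hre
  have z1 := k1' (by linarith)
  have z2 := k2' (by linarith)
  have hXG : X = G := sub_eq_zero.1 z1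
  have hXG' : X = G' := sub_eq_zero.1 z2
  have hcomm : V * G = G * V := by
    calc V * G = V * G' := by rw [← hXG', hXG]
      _ = (V * star V) * G * V := by rw [hG']; noncomm_ring
      _ = G * V := by rw [hV', one_mul]
  -- G = 1
  have s0 : tr R = tr P := by
    rw [hR, mul_assoc, tr_comm, mul_assoc, hV', mul_one]
  have s1 : tr R = tr (P * G * G) := by
    rw [← hGPG, mul_assoc, tr_comm]
  have s2 : tr (R * G * G) = tr (P * G * G) := by
    have : R * G * G = star V * (P * G * G * V) := by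
      rw [hR]
      have hc2 : V * G * G = G * G * V := by rw [hcomm, mul_assoc, hcomm, ← mul_assoc]
      calc star V * P * V * G * G = star V * P * (V * G * G) := by simp only [mul_assoc]
        _ = _ := by rw [hc2]; simp only [mul_assoc]
    rw [this, tr_comm, mul_assoc, mul_assoc, mul_assoc, hV', mul_one, ← mul_assoc]
  have s3 : tr (R * G * G) = tr (P * G * G * G * G) := by
    rw [← hGPG, show G * P * G * G * G = G * (P * G * G * G) by noncomm_ring, tr_comm]
  obtain ⟨-, k3⟩ := trace_key P (G * G - 1) 1 hP hPu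
    (ContinuousLinearMap.isPositive_one) isUnit_one
    ((by rw [IsSelfAdjoint, star_mul, hGs.star_eq] : IsSelfAdjoint (G * G)).sub
      (IsSelfAdjoint.one _))
  change (tr (P * (G * G - 1) * 1 * (G * G - 1))).re = 0 → _ at k3
  have hz : tr (P * (G * G - 1) * 1 * (G * G - 1)) = 0 := by
    have : P * (G * G - 1) * 1 * (G * G - 1)
        = P * G * G * G * G - P * G * G - P * G * G + P := by noncomm_ring
    rw [this, tr_add, tr_sub, tr_sub, ← s3, s2, ← s1, s0]
    ring
  have hGG : G * G = 1 := sub_eq_zero.1 (k3 (by rw [hz]; rfl))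
  have hG1 : G = 1 := sqrt_uniq hG ContinuousLinearMap.isPositive_one (by rw [hGG, one_mul])
  rw [← hGPG, hG1, one_mul, mul_one]

open scoped ComplexOrder in
theorem smul_pos_half {A : H →L[ℂ] H} (hA : A.IsPositive) : ((2⁻¹ : ℂ) • A).IsPositive := by
  have h : (0 : ℂ) ≤ (2⁻¹ : ℂ) := by
    have : ((2⁻¹ : ℝ) : ℂ) = (2⁻¹ : ℂ) := by push_cast; rfl
    rw [← this]
    exact_mod_cast (by norm_num : (0 : ℝ) ≤ 2⁻¹)
  exact hA.smul_of_nonneg h

theorem conj_pos {A : H →L[ℂ] H} (hA : A.IsPositive) (V : H →L[ℂ] H) :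
    (star V * A * V).IsPositive := by
  have := hA.conj_adjoint (adjoint V)
  rw [adjoint_adjoint] at this
  have e : star V * A * V = adjoint V ∘L A ∘L V := by
    rw [star_eq_adjoint]; rfl
  rw [e]; exact this

theorem conj_pos' {A : H →L[ℂ] H} (hA : A.IsPositive) {B : H →L[ℂ] H} (hB : IsSelfAdjoint B) :
    (B * A * B).IsPositive := by
  have := conj_pos hA B
  rwa [hB.star_eq] at this

theorem unit_of_half_add [FiniteDimensional ℂ H] {P R : H →L[ℂ] H} (hP : P.IsPositive)
    (hPu : IsUnit P) (hR : R.IsPositive) : IsUnit ((2⁻¹ : ℂ) • (P + R)) := by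
  have hinj : Function.Injective ((2⁻¹ : ℂ) • (P + R)) := by
    rw [injective_iff_map_eq_zero]
    intro x hx
    have h1 : P x + R x = 0 := by
      have : (2⁻¹ : ℂ) • (P x + R x) = 0 := hx
      exact (smul_eq_zero.1 this).resolve_left (by norm_num)
    have h2 : (inner ℂ (P x) x : ℂ).re + (inner ℂ (R x) x : ℂ).re = 0 := by
      rw [← Complex.add_re, ← inner_add_left, h1, inner_zero_left, Complex.zero_re]
    have h3 : 0 ≤ (inner ℂ (P x) x : ℂ).re := hP.re_inner_nonneg_left x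
    have h4 : 0 ≤ (inner ℂ (R x) x : ℂ).re := hR.re_inner_nonneg_left x
    have h5 : (inner ℂ (P x) x : ℂ).re = 0 := by linarith
    -- square root
    have h0 : 0 ≤ P := (ContinuousLinearMap.nonneg_iff_isPositive P).2 hP
    have hs : IsSelfAdjoint (CFC.sqrt P) := IsSelfAdjoint.of_nonneg (CFC.sqrt_nonneg P)
    have hss : CFC.sqrt P * CFC.sqrt P = P := CFC.sqrt_mul_sqrt_self P h0
    have hsu : IsUnit (CFC.sqrt P) := unit_of_sq (by rw [hss]; exact hPu)
    have h6 : ‖CFC.sqrt P x‖ ^ 2 = 0 := by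
      have e1 : (inner ℂ (P x) x : ℂ) = inner ℂ (CFC.sqrt P x) (CFC.sqrt P x) := by
        conv_lhs => rw [← hss]
        change inner ℂ (CFC.sqrt P (CFC.sqrt P x)) x = _
        rw [← ContinuousLinearMap.adjoint_inner_right, ← star_eq_adjoint, hs.star_eq]
      rw [e1, inner_self_eq_norm_sq_to_K] at h5
      exact_mod_cast h5
    have h7 : CFC.sqrt P x = 0 := norm_eq_zero.1 (pow_eq_zero_iff two_ne_zero |>.1 h6)
    obtain ⟨u, hu⟩ := hsu
    have h8 : ((u⁻¹ : (H →L[ℂ] H)ˣ) : H →L[ℂ] H) (CFC.sqrt P x) = x := by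
      rw [← hu]
      change (((u⁻¹ : (H →L[ℂ] H)ˣ) : H →L[ℂ] H) * (u : H →L[ℂ] H)) x = x
      rw [Units.inv_mul]; rfl
    rw [← h8, h7, map_zero]
  exact (ContinuousLinearMap.isUnit_iff_bijective).2
    ⟨hinj, (LinearMap.injective_iff_surjective
      (f := (((2⁻¹ : ℂ) • (P + R) : H →L[ℂ] H) : H →ₗ[ℂ] H))).1 hinj⟩

end InvNec

open InvNec in
theorem inv_nec [FiniteDimensional ℂ H] (T : H →L[ℂ] H) (hT : IsUnit T) (h : Commutes T) :
    IsStarNormal T := by
  obtain ⟨V, P, Q, V₁, P₁, V₂, P₂, Q₂, hT1, hQ, hD, hMn, hQ2, heq⟩ := h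
  obtain ⟨hPu, hV, hV'⟩ := polar_unit hT hT1
  obtain ⟨hQp, hQQ⟩ := hQ
  obtain ⟨hQ2p, hQQ2⟩ := hQ2
  have hVu : IsUnit V := ⟨⟨V, star V, hV', hV⟩, rfl⟩
  have hQu : IsUnit Q := unit_of_sq (by rw [hQQ]; exact hPu)
  have hQs : star Q = Q := hQp.isSelfAdjoint.star_eq
  have hQ2s : star Q₂ = Q₂ := hQ2p.isSelfAdjoint.star_eq
  have hRp : (star V * P * V).IsPositive := conj_pos hT1.pos V
  set M := (2⁻¹ : ℂ) • (P + star V * P * V) with hM
  have hMp : M.IsPositive := smul_pos_half (hT1.pos.add hRp)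
  have hMu : IsUnit M := unit_of_half_add hT1.pos hPu hRp
  have hMs : star M = M := hMp.isSelfAdjoint.star_eq
  have hmean : (2⁻¹ : ℂ) • (V * P + P * V) = V * M := by
    rw [hM, mul_smul_comm, mul_add, ← mul_assoc, ← mul_assoc, hV', one_mul]
  rw [hmean] at hMn
  have hVMu : IsUnit (V * M) := hVu.mul hMu
  have hP2 : P₂ = M := by
    apply sqrt_uniq hMn.pos hMp
    rw [hMn.sq, ← star_eq_adjoint, star_mul, hMs, mul_assoc, ← mul_assoc (star V), hV, one_mul]
  have hV2 : V₂ = V := by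
    have h1 : V * M = V₂ * M := by
      have := hMn.eq
      rwa [hP2] at this
    exact (hMu.mul_left_inj.1 h1).symm
  have hDu : IsUnit (Q * V * Q) := (hQu.mul hVu).mul hQu
  obtain ⟨hP1u, hV1, hV1'⟩ := polar_unit hDu hD
  rw [hV2] at heq
  rw [hP2] at hQQ2
  -- Z
  set Z := (2⁻¹ : ℂ) • (P₁ + star V₁ * P₁ * V₁) with hZ
  have hZp : Z.IsPositive := smul_pos_half (hD.pos.add (conj_pos hD.pos V₁))
  have hZ1 : V₁ * Z = Q₂ * V * Q₂ := by
    rw [← heq, hZ, mul_smul_comm, mul_add, ← mul_assoc, ← mul_assoc, hV1', one_mul]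
  have hZ2 : Z = star V₁ * (Q₂ * V * Q₂) := by
    rw [← hZ1, ← mul_assoc, hV1, one_mul]
  have hZs : star Z = Z := hZp.isSelfAdjoint.star_eq
  have hZZ : Z * Z = Q₂ * (star V * M * V) * Q₂ := by
    calc Z * Z = star Z * Z := by rw [hZs]
      _ = star (V₁ * Z) * (V₁ * Z) := by
        rw [star_mul, mul_assoc, ← mul_assoc (star V₁), hV1, one_mul]
      _ = Q₂ * star V * (Q₂ * Q₂) * V * Q₂ := by
        rw [hZ1, star_mul, star_mul, hQ2s]; simp only [mul_assoc]
      _ = _ := by rw [hQQ2]; simp only [mul_assoc]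
  have hQ2u : IsUnit Q₂ := unit_of_sq (by rw [hQQ2]; exact hMu)
  obtain ⟨q2, hq2⟩ := hQ2u
  obtain ⟨q, hq⟩ := hQu
  set r2 : H →L[ℂ] H := ((q2⁻¹ : (H →L[ℂ] H)ˣ) : H →L[ℂ] H) with hr2
  set r : H →L[ℂ] H := ((q⁻¹ : (H →L[ℂ] H)ˣ) : H →L[ℂ] H) with hr
  have a1 : Q₂ * r2 = 1 := by rw [← hq2, hr2, Units.mul_inv]
  have a2 : r2 * Q₂ = 1 := by rw [← hq2, hr2, Units.inv_mul]
  have b1 : Q * r = 1 := by rw [← hq, hr, Units.mul_inv]
  have b2 : r * Q = 1 := by rw [← hq, hr, Units.inv_mul]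
  have inv_sa : ∀ A B : H →L[ℂ] H, star A = A → A * B = 1 → B * A = 1 → star B = B := by
    intro A B h1 h2 h3
    have h4 : star B * A = 1 := by
      have := congrArg star h2
      rwa [star_mul, h1, star_one] at this
    calc star B = star B * (A * B) := by rw [h2, mul_one]
      _ = B := by rw [← mul_assoc, h4, one_mul]
  have hr2s : IsSelfAdjoint r2 := inv_sa Q₂ r2 hQ2s a1 a2
  have hrs : IsSelfAdjoint r := inv_sa Q r hQs b1 b2
  have hZu : IsUnit Z := by
    rw [hZ2]
    have : IsUnit V₁ := ⟨⟨V₁, star V₁, hV1', hV1⟩, rfl⟩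
    have hq2u : IsUnit Q₂ := ⟨q2, hq2⟩
    exact this.star.mul ((hq2u.mul hVu).mul hq2u)
  obtain ⟨zu, hzu⟩ := hZu
  set z : H →L[ℂ] H := ((zu⁻¹ : (H →L[ℂ] H)ˣ) : H →L[ℂ] H) with hz
  have c1 : Z * z = 1 := by rw [← hzu, hz, Units.mul_inv]
  have c2 : z * Z = 1 := by rw [← hzu, hz, Units.inv_mul]
  have hzs : star z = z := inv_sa Z z hZs c1 c2
  have hzp : z.IsPositive := by
    have h1 : z = star z * Z * z := by rw [hzs, c2, one_mul]
    rw [h1]; exact conj_pos hZp z
  have key := core V P (r * P₁ * r) (r2 * Z * r2) (Q₂ * z * Q₂) M hV hV' hT1.pos hPu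
    (conj_pos' hD.pos hrs) (conj_pos' hZp hr2s) (conj_pos' hzp hQ2s)
    (by
      calc r2 * Z * r2 * (Q₂ * z * Q₂) = r2 * Z * (r2 * Q₂) * z * Q₂ := by simp only [mul_assoc]
        _ = r2 * (Z * z) * Q₂ := by rw [a2]; simp only [mul_assoc, one_mul]
        _ = 1 := by rw [c1, mul_one, a2])
    (by
      calc Q₂ * z * Q₂ * (r2 * Z * r2) = Q₂ * z * (Q₂ * r2) * Z * r2 := by simp only [mul_assoc]
        _ = Q₂ * (z * Z) * r2 := by rw [a1]; simp only [mul_assoc, one_mul]
        _ = 1 := by rw [c2, mul_one, a1])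
    hM
    (by
      calc r * P₁ * r * P * (r * P₁ * r) = r * P₁ * (r * Q) * (Q * r) * P₁ * r := by
            rw [← hQQ]; simp only [mul_assoc]
        _ = r * (P₁ * P₁) * r := by rw [b1, b2]; simp only [mul_assoc, one_mul, mul_one]
        _ = r * (Q * (star V * (Q * Q) * V) * Q) * r := by
            rw [hD.sq, ← star_eq_adjoint, star_mul, star_mul, hQs]; simp only [mul_assoc]
        _ = (r * Q) * (star V * (Q * Q) * V) * (Q * r) := by simp only [mul_assoc]
        _ = _ := by rw [b1, b2, hQQ, one_mul, mul_one])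
    (by
      calc r2 * Z * r2 * M * (r2 * Z * r2) = r2 * Z * (r2 * Q₂) * (Q₂ * r2) * Z * r2 := by
            rw [← hQQ2]; simp only [mul_assoc]
        _ = r2 * (Z * Z) * r2 := by rw [a1, a2]; simp only [mul_assoc, one_mul, mul_one]
        _ = (r2 * Q₂) * (star V * M * V) * (Q₂ * r2) := by rw [hZZ]; simp only [mul_assoc]
        _ = _ := by rw [a1, a2, one_mul, mul_one])
    (by
      have t1 : tr (M * (r2 * Z * r2)) = tr Z := by
        have : M * (r2 * Z * r2) = Q₂ * (Z * r2) := by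
          calc M * (r2 * Z * r2) = Q₂ * (Q₂ * r2) * Z * r2 := by
                rw [← hQQ2]; simp only [mul_assoc]
            _ = _ := by rw [a1, mul_one]; simp only [mul_assoc]
        rw [this, tr_comm, mul_assoc, a2, mul_one]
      have t2 : tr (P * (r * P₁ * r)) = tr P₁ := by
        have : P * (r * P₁ * r) = Q * (P₁ * r) := by
          calc P * (r * P₁ * r) = Q * (Q * r) * P₁ * r := by
                rw [← hQQ]; simp only [mul_assoc]
            _ = _ := by rw [b1, mul_one]; simp only [mul_assoc]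
        rw [this, tr_comm, mul_assoc, b2, mul_one]
      have t3 : tr Z = tr P₁ := by
        have : tr (star V₁ * P₁ * V₁) = tr P₁ := by
          rw [mul_assoc, tr_comm, mul_assoc, hV1', mul_one]
        rw [hZ, tr_smul, tr_add, this]
        ring
      rw [t1, t2, t3])
  have hcomm : P * V = V * P := by
    calc P * V = (V * star V) * P * V := by rw [hV', one_mul]
      _ = V * (star V * P * V) := by simp only [mul_assoc]
      _ = V * P := by rw [key]
  have hPs : star P = P := hT1.pos.isSelfAdjoint.star_eq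
  rw [hT1.eq]
  refine ⟨?_⟩
  change star (V * P) * (V * P) = (V * P) * star (V * P)
  rw [star_mul, hPs]
  calc P * star V * (V * P) = P * (star V * V) * P := by simp only [mul_assoc]
    _ = P * P := by rw [hV, mul_one]
    _ = P * (V * star V) * P := by rw [hV', mul_one]
    _ = (P * V) * star V * P := by simp only [mul_assoc]
    _ = V * P * (star V * P) := by rw [hcomm]; simp only [mul_assoc]
    _ = V * P * (P * star V) := by
        have : star V * P = P * star V := by
          have := congrArg star hcomm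
          rwa [star_mul, star_mul, hPs] at this
        rw [this]

end Pool.Agent.Helper951_ma
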