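import Pool.Agent.Helper951_ma.Defs

open ContinuousLinearMap Pool.Agent.Helper951_ma

namespace Pool.Agent.Helper951_ma

variable {H : Type*} [NormedAddCommGroup H] [InnerProductSpace ℂ H] [CompleteSpace H]

namespace InvSuf

/-- the polar decomposition of an invertible operator -/
theorem polar_of_unit (T P : H →L[ℂ] H) (u : (H →L[ℂ] H)ˣ) (hT : IsUnit T)
    (hu : (u : H →L[ℂ] H) = P) (hP0 : P.IsPositive) (hPP : P * P = star T * T) :
    IsPolar T (T * (↑u⁻¹ : H →L[ℂ] H)) P := by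
  have hsa : ∀ x y : H, inner ℂ (P x) y = inner ℂ x (P y) := by
    intro x y
    have h1 : adjoint P = P := by
      have := hP0.isSelfAdjoint
      exact this
    calc inner ℂ (P x) y = inner ℂ ((adjoint P) x) y := by rw [h1]
      _ = inner ℂ x (P y) := adjoint_inner_left P y x
  refine ⟨hP0, hPP, ?_, ?_, ?_⟩
  · rw [mul_assoc, ← hu, Units.inv_mul, mul_one]
  · intro x _
    have hx : P ((↑u⁻¹ : H →L[ℂ] H) x) = x := by
      have : (P * (↑u⁻¹ : H →L[ℂ] H)) x = x := by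
        rw [← hu, Units.mul_inv]; rfl
      exact this
    set y := (↑u⁻¹ : H →L[ℂ] H) x with hy
    have h2 : (T * (↑u⁻¹ : H →L[ℂ] H)) x = T y := rfl
    rw [h2]
    have h3 : inner ℂ (T y) (T y) = inner ℂ (P y) (P y) := by
      calc inner ℂ (T y) (T y) = inner ℂ ((adjoint T) (T y)) y := (adjoint_inner_left T y (T y)).symm
        _ = inner ℂ ((star T * T) y) y := rfl
        _ = inner ℂ ((P * P) y) y := by rw [hPP]
        _ = inner ℂ (P (P y)) y := rfl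
        _ = inner ℂ (P y) (P y) := hsa _ _
    have h4 : ‖T y‖ ^ 2 = ‖P y‖ ^ 2 := by
      rw [inner_self_eq_norm_sq_to_K, inner_self_eq_norm_sq_to_K] at h3
      exact_mod_cast h3
    have h5 : ‖T y‖ = ‖P y‖ := by
      have := (sq_eq_sq₀ (norm_nonneg (T y)) (norm_nonneg (P y))).mp h4
      exact this
    rw [h5, hx]
  · intro x hx
    obtain ⟨w, hw⟩ := hT
    have hx0 : x = 0 := by
      have h1 : ((↑w⁻¹ : H →L[ℂ] H) * T) x = x := by
        rw [← hw, Units.inv_mul]; rfl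
      have h2 : ((↑w⁻¹ : H →L[ℂ] H) * T) x = (↑w⁻¹ : H →L[ℂ] H) (T x) := rfl
      rw [← h1, h2, hx, map_zero]
    rw [hx0, map_zero]

end InvSuf

theorem inv_suf (T : H →L[ℂ] H) (hT : IsUnit T) (h : IsStarNormal T) :
    Commutes T := by
  have hP0 : 0 ≤ CFC.abs T := CFC.abs_nonneg T
  have hPP : CFC.abs T * CFC.abs T = star T * T := CFC.abs_mul_abs T
  have hPT : Commute (CFC.abs T) T := CFC.commute_abs_self T
  have hPu : IsUnit (CFC.abs T) := by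
    have h1 : IsUnit (CFC.abs T * CFC.abs T) := by
      rw [hPP]; exact hT.star.mul hT
    exact ((Commute.refl (CFC.abs T)).isUnit_mul_iff.mp h1).1
  obtain ⟨u, hu⟩ := hPu
  have hQ0 : 0 ≤ CFC.sqrt (CFC.abs T) := CFC.sqrt_nonneg _
  have hQQ : CFC.sqrt (CFC.abs T) * CFC.sqrt (CFC.abs T) = CFC.abs T :=
    CFC.sqrt_mul_sqrt_self _ hP0
  have hPpos : (CFC.abs T).IsPositive := (ContinuousLinearMap.nonneg_iff_isPositive _).mp hP0
  have hpolar := InvSuf.polar_of_unit T (CFC.abs T) u hT hu hPpos hPP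
  -- commutation
  have hPuinv : Commute (CFC.abs T) (↑u⁻¹ : H →L[ℂ] H) := by
    rw [← hu]
    exact (Commute.refl (u : H →L[ℂ] H)).units_inv_right
  have hPV : Commute (CFC.abs T) (T * (↑u⁻¹ : H →L[ℂ] H)) := hPT.mul_right hPuinv
  have hQV : Commute (CFC.sqrt (CFC.abs T)) (T * (↑u⁻¹ : H →L[ℂ] H)) := by
    have := Commute.cfcₙ_nnreal hPV NNReal.sqrt
    exact this
  have hVP : T * (↑u⁻¹ : H →L[ℂ] H) * CFC.abs T = T := hpolar.eq.symm
  have hPV' : CFC.abs T * (T * (↑u⁻¹ : H →L[ℂ] H)) = T := by rw [hPV.eq, hVP]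
  have hQVQ : CFC.sqrt (CFC.abs T) * (T * (↑u⁻¹ : H →L[ℂ] H)) * CFC.sqrt (CFC.abs T) = T := by
    rw [hQV.eq, mul_assoc, hQQ, hVP]
  have hmean : (2⁻¹ : ℂ) • (T * (↑u⁻¹ : H →L[ℂ] H) * CFC.abs T +
      CFC.abs T * (T * (↑u⁻¹ : H →L[ℂ] H))) = T := by
    rw [hVP, hPV', ← two_smul ℂ T, smul_smul]
    norm_num
  have hsq : IsSqrt (CFC.abs T) (CFC.sqrt (CFC.abs T)) :=
    ⟨(ContinuousLinearMap.nonneg_iff_isPositive _).mp hQ0, hQQ⟩
  refine ⟨T * (↑u⁻¹ : H →L[ℂ] H), CFC.abs T, CFC.sqrt (CFC.abs T),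
    T * (↑u⁻¹ : H →L[ℂ] H), CFC.abs T, T * (↑u⁻¹ : H →L[ℂ] H), CFC.abs T,
    CFC.sqrt (CFC.abs T), hpolar, hsq, ?_, ?_, hsq, ?_⟩
  · rw [hQVQ]; exact hpolar
  · rw [hmean]; exact hpolar
  · rw [hmean, hQVQ]

end Pool.Agent.Helper951_ma
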