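import Pool.Agent.Helper951_ma.Defs
open ContinuousLinearMap Pool.Agent.Helper951_ma
namespace Pool.Agent.Helper951_ma
variable {H : Type*} [NormedAddCommGroup H] [InnerProductSpace ℂ H] [CompleteSpace H]

namespace RankOneJob

/-- the operator `x ↦ ⟨b, x⟩ u` -/
noncomputable def R (b u : H) : H →L[ℂ] H := (innerSL ℂ b).smulRight u

omit [CompleteSpace H] in
lemma R_apply (b u x : H) : R b u x = (inner ℂ b x : ℂ) • u := by
  simp [R]

omit [CompleteSpace H] in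
lemma mulA (A B : H →L[ℂ] H) (x : H) : (A * B) x = A (B x) := rfl

omit [CompleteSpace H] in
lemma smulA (c : ℂ) (A : H →L[ℂ] H) (x : H) : (c • A) x = c • A x := rfl

omit [CompleteSpace H] in
lemma addA (A B : H →L[ℂ] H) (x : H) : (A + B) x = A x + B x := rfl

omit [CompleteSpace H] in
lemma inner_self_one (b : H) (hb : ‖b‖ = 1) : (inner ℂ b b : ℂ) = 1 := by
  rw [inner_self_eq_norm_sq_to_K, hb]; simp

lemma R_adj (b u : H) : adjoint (R b u) = R u b := by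
  symm
  rw [eq_adjoint_iff]
  intro x y
  simp only [R_apply, inner_smul_left, inner_smul_right, inner_conj_symm]
  ring

lemma R_pos (b : H) (r : ℝ) (hr : 0 ≤ r) : ((r : ℂ) • R b b).IsPositive := by
  rw [isPositive_iff_complex]
  intro x
  have h : (inner ℂ (((r : ℂ) • R b b) x) x : ℂ) = ((r * ‖(inner ℂ b x : ℂ)‖ ^ 2 : ℝ) : ℂ) := by
    simp only [smulA, R_apply, inner_smul_left, Complex.conj_ofReal]
    push_cast
    rw [← Complex.conj_mul']
  rw [h, RCLike.re_eq_complex_re, Complex.ofReal_re]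
  exact ⟨rfl, by positivity⟩

lemma polar_R (b u : H) (hb : ‖b‖ = 1) (hu : u ≠ 0) :
    IsPolar (R b u) (R b (((‖u‖ : ℝ) : ℂ)⁻¹ • u)) (((‖u‖ : ℝ) : ℂ) • R b b) := by
  have hbb := inner_self_one b hb
  have hn : ((‖u‖ : ℝ) : ℂ) ≠ 0 := by
    simpa using hu
  refine ⟨R_pos b _ (norm_nonneg _), ?_, ?_, ?_, ?_⟩
  · rw [R_adj]
    ext x
    simp only [mulA, smulA, R_apply, inner_smul_right, hbb,
      smul_smul, inner_self_eq_norm_sq_to_K]
    congr 1
    simp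
    ring
  · ext x
    simp only [mulA, smulA, R_apply, inner_smul_right, hbb,
      smul_smul]
    congr 1
    field_simp
  · intro x hx
    have h1 : x - (inner ℂ b x : ℂ) • b = 0 := by
      have h2 : (inner ℂ b (x - (inner ℂ b x : ℂ) • b) : ℂ) = 0 := by
        rw [inner_sub_right, inner_smul_right, hbb]; simp
      have h3 := hx (x - (inner ℂ b x : ℂ) • b) (by rw [R_apply, h2, zero_smul])
      have h4 : (inner ℂ (x - (inner ℂ b x : ℂ) • b) b : ℂ) = 0 := by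
        rw [← inner_conj_symm, h2]; simp
      have h5 : (inner ℂ (x - (inner ℂ b x : ℂ) • b) (x - (inner ℂ b x : ℂ) • b) : ℂ) = 0 := by
        rw [inner_sub_right (x - (inner ℂ b x : ℂ) • b), inner_smul_right, h3, h4]; simp
      exact inner_self_eq_zero.1 h5
    have h6 : x = (inner ℂ b x : ℂ) • b := sub_eq_zero.1 h1
    have h7 : ‖x‖ = ‖(inner ℂ b x : ℂ)‖ := by
      conv_lhs => rw [h6]
      rw [norm_smul, hb, mul_one]
    rw [R_apply, norm_smul, norm_smul, h7]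
    have h8 : ‖(((‖u‖ : ℝ) : ℂ)⁻¹ : ℂ)‖ * ‖u‖ = 1 := by
      rw [norm_inv, Complex.norm_real, norm_norm]
      exact inv_mul_cancel₀ (norm_ne_zero_iff.2 hu)
    rw [h8, mul_one]
  · intro x hx
    rw [R_apply] at hx
    have h1 : (inner ℂ b x : ℂ) = 0 := by
      rcases smul_eq_zero.1 hx with h | h
      · exact h
      · exact absurd h hu
    rw [R_apply, h1, zero_smul]

lemma sqrt_R (b : H) (hb : ‖b‖ = 1) (r : ℝ) (hr : 0 ≤ r) :
    IsSqrt ((r : ℂ) • R b b) (((Real.sqrt r : ℝ) : ℂ) • R b b) := by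
  have hbb := inner_self_one b hb
  refine ⟨R_pos b _ (Real.sqrt_nonneg _), ?_⟩
  ext x
  simp only [mulA, smulA, R_apply, inner_smul_right, hbb,
    smul_smul]
  congr 1
  have h : ((Real.sqrt r : ℝ) : ℂ) * ((Real.sqrt r : ℝ) : ℂ) = (r : ℂ) := by
    rw [← Complex.ofReal_mul, Real.mul_self_sqrt hr]
  linear_combination (inner ℂ b x : ℂ) * h

lemma mean_R (b u : H) (hb : ‖b‖ = 1) (hu : u ≠ 0) :
    (2⁻¹ : ℂ) • (R b (((‖u‖ : ℝ) : ℂ)⁻¹ • u) * (((‖u‖ : ℝ) : ℂ) • R b b) +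
      (((‖u‖ : ℝ) : ℂ) • R b b) * R b (((‖u‖ : ℝ) : ℂ)⁻¹ • u)) =
      R b ((2⁻¹ : ℂ) • (u + (inner ℂ b u : ℂ) • b)) := by
  have hbb := inner_self_one b hb
  have hn : ((‖u‖ : ℝ) : ℂ) ≠ 0 := by
    simpa using hu
  ext x
  simp only [addA, mulA, smulA,
    R_apply, inner_smul_right, hbb, smul_smul, smul_add]
  congr 1
  · congr 1
    field_simp
  · congr 1
    field_simp

lemma alu_R (b u : H) (hb : ‖b‖ = 1) (hu : u ≠ 0) :
    (((Real.sqrt ‖u‖ : ℝ) : ℂ) • R b b) * R b (((‖u‖ : ℝ) : ℂ)⁻¹ • u) *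
      (((Real.sqrt ‖u‖ : ℝ) : ℂ) • R b b) = R b ((inner ℂ b u : ℂ) • b) := by
  have hbb := inner_self_one b hb
  have hn : ((‖u‖ : ℝ) : ℂ) ≠ 0 := by
    simpa using hu
  have h : ((Real.sqrt ‖u‖ : ℝ) : ℂ) * ((Real.sqrt ‖u‖ : ℝ) : ℂ) = ((‖u‖ : ℝ) : ℂ) := by
    rw [← Complex.ofReal_mul, Real.mul_self_sqrt (norm_nonneg _)]
  ext x
  simp only [mulA, smulA, R_apply, inner_smul_right, hbb,
    smul_smul]
  congr 1
  have h2 : (((‖u‖ : ℝ) : ℂ))⁻¹ * ((‖u‖ : ℝ) : ℂ) = 1 := inv_mul_cancel₀ hn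
  calc _ = (inner ℂ b x : ℂ) * (inner ℂ b u : ℂ) * ((((‖u‖ : ℝ) : ℂ))⁻¹ *
        (((Real.sqrt ‖u‖ : ℝ) : ℂ) * ((Real.sqrt ‖u‖ : ℝ) : ℂ))) := by ring
    _ = _ := by rw [h, h2]; ring

lemma polar_zero : IsPolar (0 : H →L[ℂ] H) 0 0 := by
  refine ⟨isPositive_zero, by simp, by simp, ?_, by simp⟩
  intro x hx
  have h := hx x (by simp)
  have h1 : x = 0 := inner_self_eq_zero.1 h
  simp [h1]

lemma R_zero (b : H) : R b (0 : H) = 0 := by
  ext x; simp [R_apply]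

lemma commutes_zero : Commutes (0 : H →L[ℂ] H) := by
  refine ⟨0, 0, 0, 0, 0, 0, 0, 0, polar_zero, ⟨isPositive_zero, by simp⟩, ?_, ?_, ⟨isPositive_zero, by simp⟩, by simp⟩
  · simpa using (polar_zero (H := H))
  · simpa using (polar_zero (H := H))

lemma commutes_R (b a : H) (hb : ‖b‖ = 1) (ha : a ≠ 0) : Commutes (R b a) := by
  have hbb := inner_self_one b hb
  set c : ℂ := inner ℂ b a with hc
  set u : H := (2⁻¹ : ℂ) • (a + c • b) with hu
  have hbu : (inner ℂ b u : ℂ) = c := by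
    rw [hu, inner_smul_right, inner_add_right, inner_smul_right, hbb, ← hc]
    ring
  have hu0 : u ≠ 0 := by
    intro h
    have hc0 : c = 0 := by rw [← hbu, h, inner_zero_right]
    apply ha
    rw [hu, hc0, zero_smul, add_zero] at h
    rcases smul_eq_zero.1 h with h | h
    · norm_num at h
    · exact h
  by_cases hc0 : c = 0
  · refine ⟨R b (((‖a‖ : ℝ) : ℂ)⁻¹ • a), ((‖a‖ : ℝ) : ℂ) • R b b, ((Real.sqrt ‖a‖ : ℝ) : ℂ) • R b b,
      0, 0, R b (((‖u‖ : ℝ) : ℂ)⁻¹ • u), ((‖u‖ : ℝ) : ℂ) • R b b, ((Real.sqrt ‖u‖ : ℝ) : ℂ) • R b b,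
      polar_R b a hb ha, sqrt_R b hb _ (norm_nonneg _), ?_, ?_, sqrt_R b hb _ (norm_nonneg _), ?_⟩
    · rw [alu_R b a hb ha, ← hc, hc0, zero_smul, R_zero]
      exact polar_zero
    · rw [mean_R b a hb ha, ← hc, ← hu]
      exact polar_R b u hb hu0
    · rw [alu_R b u hb hu0, hbu, hc0, zero_smul, R_zero]
      simp
  · have hb0 : b ≠ 0 := by
      intro h; rw [h, norm_zero] at hb; norm_num at hb
    have hw0 : c • b ≠ 0 := smul_ne_zero hc0 hb0
    refine ⟨R b (((‖a‖ : ℝ) : ℂ)⁻¹ • a), ((‖a‖ : ℝ) : ℂ) • R b b, ((Real.sqrt ‖a‖ : ℝ) : ℂ) • R b b,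
      R b (((‖c • b‖ : ℝ) : ℂ)⁻¹ • (c • b)), ((‖c • b‖ : ℝ) : ℂ) • R b b,
      R b (((‖u‖ : ℝ) : ℂ)⁻¹ • u), ((‖u‖ : ℝ) : ℂ) • R b b, ((Real.sqrt ‖u‖ : ℝ) : ℂ) • R b b,
      polar_R b a hb ha, sqrt_R b hb _ (norm_nonneg _), ?_, ?_, sqrt_R b hb _ (norm_nonneg _), ?_⟩
    · rw [alu_R b a hb ha, ← hc]
      exact polar_R b (c • b) hb hw0
    · rw [mean_R b a hb ha, ← hc, ← hu]
      exact polar_R b u hb hu0
    · rw [alu_R b u hb hu0, mean_R b (c • b) hb hw0, hbu, inner_smul_right, hbb, mul_one]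
      congr 1
      rw [← two_smul ℂ (c • b), smul_smul]
      norm_num

end RankOneJob

open RankOneJob in
theorem rank_one (a b : H) (T : H →L[ℂ] H) (hT : ∀ x, T x = (inner ℂ b x : ℂ) • a) : Commutes T := by
  by_cases ha : a = 0
  · have h : T = 0 := by
      ext x; rw [hT, ha, smul_zero]; rfl
    rw [h]; exact commutes_zero
  by_cases hb : b = 0
  · have h : T = 0 := by
      ext x; rw [hT, hb, inner_zero_left, zero_smul]; rfl
    rw [h]; exact commutes_zero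
  have hn : ((‖b‖ : ℝ) : ℂ) ≠ 0 := by
    simpa using hb
  have h : T = R ((((‖b‖ : ℝ) : ℂ))⁻¹ • b) (((‖b‖ : ℝ) : ℂ) • a) := by
    ext x
    rw [hT, RankOneJob.R_apply, inner_smul_left, map_inv₀, Complex.conj_ofReal, smul_smul]
    congr 1
    field_simp
  rw [h]
  apply commutes_R
  · rw [norm_smul, norm_inv, Complex.norm_real, norm_norm]
    exact inv_mul_cancel₀ (norm_ne_zero_iff.2 hb)
  · exact smul_ne_zero hn ha

end Pool.Agent.Helper951_ma
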