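import Pool.Agent.Helper951_ma.ShiftSuf
open ContinuousLinearMap Pool.Agent.Helper951_ma
namespace Pool.Agent.Helper951_ma
variable {H : Type*} [NormedAddCommGroup H] [InnerProductSpace ℂ H] [CompleteSpace H]

namespace ShiftNec
open ShiftSuf

theorem polar_apply {ι : Type*} (e : HilbertBasis ι ℂ H) (σ : ι → ι) (hσ : Function.Injective σ)
    {S V P : H →L[ℂ] H} {s : ι → ℝ} (hs : ∀ i, 0 < s i)
    (hS : ∀ i, S (e i) = (s i : ℂ) • e (σ i)) (h : IsPolar S V P) (i : ι) :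
    P (e i) = (s i : ℂ) • e i ∧ V (e i) = e (σ i) := by
  have h1 : P (e i) = (s i : ℂ) • e i := by
    apply root_apply h.pos (hs i)
    rw [← gram e σ hσ hS i]
    exact congrArg (fun A : H →L[ℂ] H => A (e i)) h.sq
  refine ⟨h1, ?_⟩
  have h2 : S (e i) = V (P (e i)) := congrArg (fun A : H →L[ℂ] H => A (e i)) h.eq
  rw [hS, h1, map_smul] at h2
  have h3 : (s i : ℂ) ≠ 0 := by exact_mod_cast (hs i).ne'
  exact (smul_right_injective H h3 h2).symm

theorem sqrt_apply {ι : Type*} (e : HilbertBasis ι ℂ H)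
    {P Q : H →L[ℂ] H} {s : ι → ℝ} (hs : ∀ i, 0 < s i)
    (hP : ∀ i, P (e i) = (s i : ℂ) • e i) (h : IsSqrt P Q) (i : ι) :
    Q (e i) = ((Real.sqrt (s i) : ℝ) : ℂ) • e i := by
  apply root_apply h.1 (Real.sqrt_pos.2 (hs i))
  have h2 : ((Real.sqrt (s i) : ℝ) : ℂ) * ((Real.sqrt (s i) : ℝ) : ℂ) = (s i : ℂ) := by
    rw [← Complex.ofReal_mul, Real.mul_self_sqrt (hs i).le]
  rw [h2, ← hP i]
  exact congrArg (fun A : H →L[ℂ] H => A (e i)) h.2

theorem scal' {a b c : ℝ} (ha : 0 < a) (hb : 0 < b) (hc : 0 < c)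
    (h : 2⁻¹ * (Real.sqrt b * Real.sqrt a + Real.sqrt c * Real.sqrt b) =
      Real.sqrt (2⁻¹ * (b + c)) * Real.sqrt (2⁻¹ * (a + b))) : b ^ 2 = a * c := by
  have hsq := congrArg (fun t => t ^ 2) h
  simp only [mul_pow] at hsq
  rw [Real.sq_sqrt (by positivity), Real.sq_sqrt (by positivity)] at hsq
  have hA := Real.sq_sqrt ha.le
  have hB := Real.sq_sqrt hb.le
  have hC := Real.sq_sqrt hc.le
  set x := Real.sqrt a
  set y := Real.sqrt b
  set z := Real.sqrt c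
  have h0 : (x * z - y ^ 2) ^ 2 = 0 := by
    rw [← hA, ← hB, ← hC] at hsq
    nlinarith [hsq]
  have h1 : x * z - y ^ 2 = 0 := pow_eq_zero_iff two_ne_zero |>.1 h0
  have h2 : y ^ 2 = x * z := by linarith
  rw [← hA, ← hC, ← mul_pow, ← h2, hB]

end ShiftNec

open ShiftNec in
theorem shift_nec {ι : Type*} (e : HilbertBasis ι ℂ H) (σ : ι → ι) (hσ : Function.Injective σ)
    (w : ι → ℝ) (hw : ∀ i, 0 < w i) (T : H →L[ℂ] H) (hT : ∀ i, T (e i) = (w i : ℂ) • e (σ i))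
    (h : Commutes T) (i : ι) : w (σ i) ^ 2 = w i * w (σ (σ i)) := by
  obtain ⟨V, P, Q, V₁, P₁, V₂, P₂, Q₂, hT1, hQ, hD, hMn, hQ2, heq⟩ := h
  have p1 := polar_apply e σ hσ hw hT hT1
  have q1 := sqrt_apply e hw (fun i => (p1 i).1) hQ
  have hDe : ∀ i, (Q * V * Q) (e i)
      = ((Real.sqrt (w (σ i)) * Real.sqrt (w i) : ℝ) : ℂ) • e (σ i) := by
    intro i
    change Q (V (Q (e i))) = _
    rw [q1, map_smul, (p1 i).2, map_smul, q1, smul_smul]
    push_cast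
    rw [mul_comm]
  have hd : ∀ i, 0 < Real.sqrt (w (σ i)) * Real.sqrt (w i) := fun i =>
    mul_pos (Real.sqrt_pos.2 (hw _)) (Real.sqrt_pos.2 (hw _))
  have p2 := polar_apply e σ hσ hd hDe hD
  have hMe : ∀ i, ((2⁻¹ : ℂ) • (V * P + P * V)) (e i)
      = ((2⁻¹ * (w i + w (σ i)) : ℝ) : ℂ) • e (σ i) := by
    intro i
    change (2⁻¹ : ℂ) • (V (P (e i)) + P (V (e i))) = _
    rw [(p1 i).1, map_smul, (p1 i).2, (p1 (σ i)).1, ← add_smul, smul_smul]
    push_cast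
    rfl
  have hm : ∀ i, 0 < 2⁻¹ * (w i + w (σ i)) := fun i => by
    have := hw i; have := hw (σ i); positivity
  have p3 := polar_apply e σ hσ hm hMe hMn
  have q2 := sqrt_apply e hm (fun i => (p3 i).1) hQ2
  have h1 := congrArg (fun A : H →L[ℂ] H => A (e i)) heq
  change (2⁻¹ : ℂ) • (V₁ (P₁ (e i)) + P₁ (V₁ (e i))) = Q₂ (V₂ (Q₂ (e i))) at h1
  rw [(p2 i).1, map_smul, (p2 i).2, (p2 (σ i)).1, ← add_smul, smul_smul, q2, map_smul,
    (p3 i).2, map_smul, q2, smul_smul] at h1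
  have hne : e (σ i) ≠ 0 := e.orthonormal.ne_zero _
  have h2 := smul_left_injective ℂ hne h1
  have h3 : 2⁻¹ * (Real.sqrt (w (σ i)) * Real.sqrt (w i)
      + Real.sqrt (w (σ (σ i))) * Real.sqrt (w (σ i)))
      = Real.sqrt (2⁻¹ * (w i + w (σ i))) * Real.sqrt (2⁻¹ * (w (σ i) + w (σ (σ i)))) := by
    apply Complex.ofReal_injective
    push_cast
    push_cast at h2
    linear_combination h2
  exact scal' (hw i) (hw _) (hw _) (by rw [h3, mul_comm])

end Pool.Agent.Helper951_ma
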