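import Pool.Agent.Helper951_ma.Defs
open ContinuousLinearMap Pool.Agent.Helper951_ma
namespace Pool.Agent.Helper951_ma

namespace ShiftSuf

set_option linter.unusedSectionVars false

variable {H : Type*} [NormedAddCommGroup H] [InnerProductSpace ℂ H] [CompleteSpace H]

theorem ext_basis {ι : Type*} (e : HilbertBasis ι ℂ H) {A B : H →L[ℂ] H}
    (h : ∀ i, A (e i) = B (e i)) : A = B := by
  refine ContinuousLinearMap.ext_on
    (Submodule.dense_iff_topologicalClosure_eq_top.2 e.dense_span) ?_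
  rintro _ ⟨i, rfl⟩
  exact h i

theorem ext_inner_basis {ι : Type*} (e : HilbertBasis ι ℂ H) {x y : H}
    (h : ∀ i, inner ℂ (e i) x = inner ℂ (e i) y) : x = y := by
  apply e.repr.injective
  apply lp.ext
  funext i
  rw [e.repr_apply_apply, e.repr_apply_apply]
  exact h i

theorem exists_iso {ι : Type*} (e : HilbertBasis ι ℂ H) (σ : ι → ι)
    (hσ : Function.Injective σ) :
    ∃ V : H →L[ℂ] H, (∀ i, V (e i) = e (σ i)) ∧ ∀ x, ‖V x‖ = ‖x‖ := by
  classical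
  have hv : Orthonormal ℂ (e ∘ σ) := e.orthonormal.comp σ hσ
  refine ⟨(hv.orthogonalFamily.linearIsometry.comp
    e.repr.toLinearIsometry).toContinuousLinearMap, fun i => ?_, fun x => ?_⟩
  · show hv.orthogonalFamily.linearIsometry (e.repr (e i)) = e (σ i)
    rw [e.repr_self, OrthogonalFamily.linearIsometry_apply_single]
    simp
  · exact (hv.orthogonalFamily.linearIsometry.comp e.repr.toLinearIsometry).norm_map x

/-- a positive operator with `P P x = c² x` -/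
theorem root_apply {P : H →L[ℂ] H} (hP : P.IsPositive) {x : H} {c : ℝ} (hc : 0 < c)
    (h : P (P x) = ((c : ℂ) * c) • x) : P x = (c : ℂ) • x := by
  have hy : P (P x - (c : ℂ) • x) = -((c : ℂ) • (P x - (c : ℂ) • x)) := by
    rw [map_sub, map_smul, h, smul_sub, smul_smul]
    abel
  have h0 : 0 ≤ (inner ℂ (P (P x - (c : ℂ) • x)) (P x - (c : ℂ) • x)).re :=
    hP.re_inner_nonneg_left _
  rw [hy, inner_neg_left, inner_smul_left, Complex.conj_ofReal,
    inner_self_eq_norm_sq_to_K] at h0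
  have h1 : (-((c : ℂ) * ((‖P x - (c : ℂ) • x‖ : ℂ)) ^ 2)).re =
      -(c * ‖P x - (c : ℂ) • x‖ ^ 2) := by
    norm_cast
  have h2 : 0 ≤ -(c * ‖P x - (c : ℂ) • x‖ ^ 2) := by
    rw [← h1]
    exact h0
  have h3 : ‖P x - (c : ℂ) • x‖ ^ 2 = 0 := by
    have := sq_nonneg ‖P x - (c : ℂ) • x‖
    nlinarith
  have h4 : ‖P x - (c : ℂ) • x‖ = 0 := by
    exact pow_eq_zero_iff (two_ne_zero) |>.1 h3
  exact sub_eq_zero.1 (norm_eq_zero.1 h4)

theorem gram {ι : Type*} (e : HilbertBasis ι ℂ H) (σ : ι → ι) (hσ : Function.Injective σ)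
    {S : H →L[ℂ] H} {s : ι → ℝ} (hS : ∀ i, S (e i) = (s i : ℂ) • e (σ i)) (i : ι) :
    adjoint S (S (e i)) = ((s i : ℂ) * s i) • e i := by
  classical
  apply ext_inner_basis e
  intro j
  rw [adjoint_inner_right, hS, hS, inner_smul_left, inner_smul_right, inner_smul_right,
    Complex.conj_ofReal, orthonormal_iff_ite.1 e.orthonormal, orthonormal_iff_ite.1 e.orthonormal]
  by_cases hij : j = i
  · subst hij
    simp
  · rw [if_neg hij, if_neg (fun h => hij (hσ h))]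
    simp

theorem polar {ι : Type*} (e : HilbertBasis ι ℂ H) (σ : ι → ι) (hσ : Function.Injective σ)
    {V : H →L[ℂ] H} (hV : ∀ i, V (e i) = e (σ i)) (hVn : ∀ x, ‖V x‖ = ‖x‖)
    (S : H →L[ℂ] H) (s : ι → ℝ) (hs : ∀ i, 0 < s i)
    (hS : ∀ i, S (e i) = (s i : ℂ) • e (σ i)) :
    ∃ P : H →L[ℂ] H, IsPolar S V P ∧ ∀ i, P (e i) = (s i : ℂ) • e i := by
  have hnn : (0 : H →L[ℂ] H) ≤ adjoint S * S := by
    have := star_mul_self_nonneg S
    rwa [star_eq_adjoint] at this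
  have hpos : (CFC.sqrt (adjoint S * S)).IsPositive :=
    (nonneg_iff_isPositive _).1 (CFC.sqrt_nonneg _)
  have hsq : CFC.sqrt (adjoint S * S) * CFC.sqrt (adjoint S * S) = adjoint S * S :=
    CFC.sqrt_mul_sqrt_self _ hnn
  have hPe : ∀ i, CFC.sqrt (adjoint S * S) (e i) = (s i : ℂ) • e i := by
    intro i
    apply root_apply hpos (hs i)
    have := congrArg (fun A : H →L[ℂ] H => A (e i)) hsq
    rw [← gram e σ hσ hS i]
    exact this
  refine ⟨CFC.sqrt (adjoint S * S), ⟨hpos, hsq, ?_, fun x _ => hVn x, ?_⟩, hPe⟩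
  · apply ext_basis e
    intro i
    show S (e i) = V (CFC.sqrt (adjoint S * S) (e i))
    rw [hPe, map_smul, hV, hS]
  · intro x hx
    have hx0 : x = 0 := by
      apply ext_inner_basis e
      intro i
      have h1 : inner ℂ (adjoint S (S (e i))) x = 0 := by
        rw [adjoint_inner_left, hx, inner_zero_right]
      rw [gram e σ hσ hS i, inner_smul_left] at h1
      have h2 : (starRingEnd ℂ) ((s i : ℂ) * s i) ≠ 0 := by
        rw [map_mul, Complex.conj_ofReal]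
        have : (s i : ℂ) ≠ 0 := by exact_mod_cast (hs i).ne'
        exact mul_ne_zero this this
      rw [inner_zero_right]
      exact (mul_eq_zero.1 h1).resolve_left h2
    rw [hx0, map_zero]

theorem root {ι : Type*} (e : HilbertBasis ι ℂ H) {P : H →L[ℂ] H} (hP : P.IsPositive)
    {s : ι → ℝ} (hs : ∀ i, 0 < s i) (hPe : ∀ i, P (e i) = (s i : ℂ) • e i) :
    ∃ Q : H →L[ℂ] H, IsSqrt P Q ∧ ∀ i, Q (e i) = ((Real.sqrt (s i) : ℝ) : ℂ) • e i := by
  have hnn : (0 : H →L[ℂ] H) ≤ P := (nonneg_iff_isPositive _).2 hP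
  have hpos : (CFC.sqrt P).IsPositive := (nonneg_iff_isPositive _).1 (CFC.sqrt_nonneg _)
  have hsq : CFC.sqrt P * CFC.sqrt P = P := CFC.sqrt_mul_sqrt_self _ hnn
  refine ⟨CFC.sqrt P, ⟨hpos, hsq⟩, fun i => ?_⟩
  apply root_apply hpos (Real.sqrt_pos.2 (hs i))
  have h1 := congrArg (fun A : H →L[ℂ] H => A (e i)) hsq
  have h2 : ((Real.sqrt (s i) : ℝ) : ℂ) * ((Real.sqrt (s i) : ℝ) : ℂ) = (s i : ℂ) := by
    rw [← Complex.ofReal_mul, Real.mul_self_sqrt (hs i).le]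
  rw [h2, ← hPe i]
  exact h1

theorem scal {a b c : ℝ} (ha : 0 < a) (hb : 0 < b) (hc : 0 < c) (h : b ^ 2 = a * c) :
    2⁻¹ * (Real.sqrt a * Real.sqrt b + Real.sqrt b * Real.sqrt c) =
      Real.sqrt (2⁻¹ * (a + b)) * Real.sqrt (2⁻¹ * (b + c)) := by
  rw [← Real.sqrt_mul (show 0 ≤ 2⁻¹ * (a + b) by positivity)]
  symm
  rw [Real.sqrt_eq_iff_mul_self_eq (by positivity) (by positivity)]
  have hA := Real.mul_self_sqrt ha.le
  have hB := Real.mul_self_sqrt hb.le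
  have hC := Real.mul_self_sqrt hc.le
  have hAC : Real.sqrt a * Real.sqrt c = b := by
    rw [← Real.sqrt_mul ha.le, ← h]
    exact Real.sqrt_sq hb.le
  have e1 : 2⁻¹ * (Real.sqrt a * Real.sqrt b + Real.sqrt b * Real.sqrt c) *
      (2⁻¹ * (Real.sqrt a * Real.sqrt b + Real.sqrt b * Real.sqrt c)) =
      4⁻¹ * ((Real.sqrt b * Real.sqrt b) * (Real.sqrt a * Real.sqrt a +
        2 * (Real.sqrt a * Real.sqrt c) + Real.sqrt c * Real.sqrt c)) := by ring
  rw [e1, hA, hB, hC, hAC]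
  nlinarith [h]

end ShiftSuf

open ShiftSuf

variable {H : Type*} [NormedAddCommGroup H] [InnerProductSpace ℂ H] [CompleteSpace H]
theorem shift_suf {ι : Type*} (e : HilbertBasis ι ℂ H) (σ : ι → ι) (hσ : Function.Injective σ)
    (w : ι → ℝ) (hw : ∀ i, 0 < w i) (T : H →L[ℂ] H) (hT : ∀ i, T (e i) = (w i : ℂ) • e (σ i))
    (h : ∀ i : ι, w (σ i) ^ 2 = w i * w (σ (σ i))) : Commutes T := by
  obtain ⟨V, hV, hVn⟩ := exists_iso e σ hσ
  obtain ⟨P, hP, hPe⟩ := polar e σ hσ hV hVn T w hw hT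
  obtain ⟨Q, hQ, hQe⟩ := root e hP.pos hw hPe
  have hd : ∀ i, 0 < Real.sqrt (w i) * Real.sqrt (w (σ i)) := fun i =>
    mul_pos (Real.sqrt_pos.2 (hw i)) (Real.sqrt_pos.2 (hw (σ i)))
  obtain ⟨P₁, hP₁, hP₁e⟩ := polar e σ hσ hV hVn (Q * V * Q)
    (fun i => Real.sqrt (w i) * Real.sqrt (w (σ i))) hd (by
      intro i
      show Q (V (Q (e i))) = _
      rw [hQe, map_smul, hV, map_smul, hQe, smul_smul, Complex.ofReal_mul])
  have hm : ∀ i, 0 < 2⁻¹ * (w i + w (σ i)) := fun i => by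
    have := hw i
    have := hw (σ i)
    positivity
  obtain ⟨P₂, hP₂, hP₂e⟩ := polar e σ hσ hV hVn ((2⁻¹ : ℂ) • (V * P + P * V))
    (fun i => 2⁻¹ * (w i + w (σ i))) hm (by
      intro i
      show (2⁻¹ : ℂ) • (V (P (e i)) + P (V (e i))) = _
      rw [hPe, map_smul, hV, hPe, ← add_smul, smul_smul]
      congr 1
      push_cast
      ring)
  obtain ⟨Q₂, hQ₂, hQ₂e⟩ := root e hP₂.pos hm hP₂e
  refine ⟨V, P, Q, V, P₁, V, P₂, Q₂, hP, hQ, hP₁, hP₂, hQ₂, ?_⟩
  apply ext_basis e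
  intro i
  show (2⁻¹ : ℂ) • (V (P₁ (e i)) + P₁ (V (e i))) = Q₂ (V (Q₂ (e i)))
  rw [hP₁e, map_smul, hV, hP₁e, ← add_smul, smul_smul, hQ₂e, map_smul, hV, map_smul, hQ₂e,
    smul_smul]
  congr 1
  have h1 := scal (hw i) (hw (σ i)) (hw (σ (σ i))) (h i)
  have h2 : (2⁻¹ : ℂ) = ((2⁻¹ : ℝ) : ℂ) := by push_cast; rfl
  rw [h2, ← Complex.ofReal_add, ← Complex.ofReal_mul, ← Complex.ofReal_mul]
  exact congrArg _ h1

end Pool.Agent.Helper951_ma
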